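import Pool.Agent.H207.TP.Stm3

/-! Dimension count for slices (proof of `S_LAG`), by helper600. -/

set_option autoImplicit false

open Metric Set MeasureTheory Filter Topology Polynomial
open scoped OnePoint ENNReal

namespace Pool.Agent.H600.TP207

open Pool.Agent.H207.TP
open Pool.Agent.H211.LD (pol pol_coeff)

/-- the coefficients -/
noncomputable def cf (d : ℕ) : ℂ[X] →ₗ[ℂ] PC d := LinearMap.pi fun i => lcoeff ℂ (i : ℕ)

theorem cf_apply (d : ℕ) (P : ℂ[X]) (i : Fin (d + 1)) : cf d P i = P.coeff i := rfl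

theorem pol_cf {d : ℕ} {P : ℂ[X]} (hP : P.natDegree ≤ d) : pol (cf d P) = P := by
  ext j
  rw [pol_coeff]
  split_ifs with h
  · rfl
  · exact (coeff_eq_zero_of_natDegree_lt (by omega)).symm

theorem cf_pol {d : ℕ} (h : PC d) : cf d (pol h) = h := by
  funext i
  rw [cf_apply, pol_coeff, dif_pos i.2]

theorem pol_add {d : ℕ} (g h : PC d) : pol (g + h) = pol g + pol h := by
  ext j
  rw [coeff_add, pol_coeff, pol_coeff, pol_coeff]
  split_ifs with hj
  · rfl
  · simp

/-- the infinitesimal conjugations -/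
noncomputable def cj (T : ℂ[X]) : ℂ × ℂ →ₗ[ℂ] ℂ[X] where
  toFun p := conjP T p.1 p.2
  map_add' p q := by
    simp only [conjP, Prod.fst_add, Prod.snd_add, C_add]
    ring
  map_smul' c p := by
    simp only [conjP, Prod.smul_fst, Prod.smul_snd, smul_eq_mul, C_mul, RingHom.id_apply,
      smul_eq_C_mul]
    ring

theorem natDegree_conjP {d : ℕ} {T : ℂ[X]} (hd : 2 ≤ d) (hT : T.natDegree = d) (α β : ℂ) :
    (conjP T α β).natDegree ≤ d := by
  unfold conjP
  have h1 : (C α + C β * T).natDegree ≤ d := by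
    refine (natDegree_add_le _ _).trans (max_le ?_ ?_)
    · rw [natDegree_C]; omega
    · exact (natDegree_C_mul_le _ _).trans hT.le
  have h2 : (derivative T * (C α + C β * X)).natDegree ≤ d := by
    refine natDegree_mul_le.trans ?_
    have h3 : (derivative T).natDegree ≤ d - 1 := hT ▸ natDegree_derivative_le T
    have h4 : (C α + C β * X).natDegree ≤ 1 := by
      refine (natDegree_add_le _ _).trans (max_le ?_ ?_)
      · rw [natDegree_C]; omega
      · exact (natDegree_C_mul_le _ _).trans natDegree_X_le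
    omega
  exact (natDegree_sub_le _ _).trans (max_le h1 h2)

theorem conjP_zero {d : ℕ} {T : ℂ[X]} (hd : 2 ≤ d) (hT : T.natDegree = d) {α β : ℂ}
    (h : conjP T α β = 0) : α = 0 ∧ β = 0 := by
  obtain ⟨n, rfl⟩ : ∃ n, d = n + 2 := ⟨d - 2, by omega⟩
  have hlead : T.coeff (n + 2) ≠ 0 := by
    have h1 : T.leadingCoeff ≠ 0 := by
      rw [Ne, leadingCoeff_eq_zero]
      intro h0
      rw [h0, natDegree_zero] at hT
      omega
    rwa [leadingCoeff, hT] at h1
  have hz : T.coeff (n + 2 + 1) = 0 := coeff_eq_zero_of_natDegree_lt (by omega)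
  have hexp : conjP T α β = C α + C β * T - (C α * derivative T + C β * (derivative T * X)) := by
    unfold conjP
    ring
  have h1 : (conjP T α β).coeff (n + 2) = β * T.coeff (n + 2) * (1 - (n + 2)) := by
    rw [hexp, coeff_sub, coeff_add, coeff_add, coeff_C_mul, coeff_C_mul, coeff_C_mul,
      show n + 2 = (n + 1) + 1 from rfl, coeff_mul_X, coeff_C_succ, coeff_derivative,
      coeff_derivative]
    rw [show n + 1 + 1 + 1 = n + 2 + 1 from rfl, hz]
    push_cast
    ring
  rw [h, coeff_zero] at h1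
  have hn : (1 : ℂ) - (n + 2) ≠ 0 := by
    intro h0
    have h2 : ((n + 1 : ℕ) : ℂ) = 0 := by
      push_cast
      linear_combination -h0
    exact absurd (Nat.cast_eq_zero.1 h2) (by omega)
  have hβ : β = 0 := by
    by_contra hb
    exact mul_ne_zero (mul_ne_zero hb hlead) hn h1.symm
  subst hβ
  have h2 : (conjP T α 0).coeff (n + 1) = -(α * (T.coeff (n + 2) * (n + 2))) := by
    rw [hexp, coeff_sub, coeff_add, coeff_add, coeff_C_mul, coeff_C_mul, coeff_C_mul,
      coeff_C_succ, coeff_derivative]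
    push_cast
    ring
  rw [h, coeff_zero] at h2
  have hn2 : ((n : ℂ) + 2) ≠ 0 := by
    have : ((n + 2 : ℕ) : ℂ) ≠ 0 := Nat.cast_ne_zero.2 (by omega)
    push_cast at this
    exact this
  refine ⟨?_, rfl⟩
  by_contra ha
  exact mul_ne_zero ha (mul_ne_zero hlead hn2) (by linear_combination h2)

theorem t_LAG : S_LAG := by
  intro d m N a D ℓ hd hT hmN hD hℓ hℓD hℓc h hh
  set T := pol a with hTdef
  let Φ : (Fin m → ℂ) × (ℂ × ℂ) →ₗ[ℂ] PC d :=
    D.comp (LinearMap.fst ℂ _ _) + ((cf d).comp (cj T)).comp (LinearMap.snd ℂ _ _)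
  have hΦ : ∀ v p, Φ (v, p) = D v + cf d (conjP T p.1 p.2) := fun v p => rfl
  have hinj : Function.Injective Φ := by
    rw [← LinearMap.ker_eq_bot, LinearMap.ker_eq_bot']
    rintro ⟨v, α, β⟩ h0
    rw [hΦ] at h0
    have h1 : pol (D v) = conjP T (-α) (-β) := by
      have h2 : D v = - cf d (conjP T α β) := eq_neg_of_add_eq_zero_left h0
      have h3 : - cf d (conjP T α β) = cf d (conjP T (-α) (-β)) := by
        have h4 : conjP T (-α) (-β) = - conjP T α β := by
          simp only [conjP, C_neg]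
          ring
        rw [h4, map_neg]
      rw [h2, h3, pol_cf (natDegree_conjP hd hT _ _)]
    have hv : v = 0 := hD v _ _ h1
    subst hv
    rw [map_zero, zero_add] at h0
    have h5 : conjP T α β = 0 := by
      rw [← pol_cf (natDegree_conjP hd hT α β)]
      simp only at h0
      rw [h0]
      simp [Pool.Agent.H211.LD.pol]
    obtain ⟨rfl, rfl⟩ := conjP_zero hd hT h5
    rfl
  have hle : LinearMap.range Φ ≤ LinearMap.ker ℓ := by
    rintro _ ⟨⟨v, α, β⟩, rfl⟩
    rw [LinearMap.mem_ker, hΦ, map_add, hℓD, zero_add]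
    exact hℓc _ α β (pol_cf (natDegree_conjP hd hT _ _))
  have hr1 : Module.finrank ℂ (LinearMap.range Φ) = m + 2 := by
    rw [LinearMap.finrank_range_of_inj hinj, Module.finrank_prod, Module.finrank_prod,
      Module.finrank_fin_fun, Module.finrank_self]
  have hr2 : Module.finrank ℂ (LinearMap.ker ℓ) = m + 2 := by
    have h1 := LinearMap.finrank_range_add_finrank_ker ℓ
    rw [LinearMap.range_eq_top.2 hℓ, finrank_top, Module.finrank_fin_fun, Module.finrank_fin_fun] at h1
    omega
  have heq : LinearMap.range Φ = LinearMap.ker ℓ :=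
    Submodule.eq_of_le_of_finrank_eq hle (hr1.trans hr2.symm)
  have hmem : h ∈ LinearMap.range Φ := by
    rw [heq, LinearMap.mem_ker]
    exact hh
  obtain ⟨⟨v, α, β⟩, hx⟩ := hmem
  refine ⟨v, α, β, ?_⟩
  rw [← hx, hΦ, pol_add, pol_cf (natDegree_conjP hd hT _ _)]

end Pool.Agent.H600.TP207
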